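import Pool.Agent.MP_fcd29e_an.H81.Spec

/-!
Weak calculus of forms.
-/

set_option autoImplicit false

open MeasureTheory Complex Set Filter Topology Metric
open scoped ContDiff ComplexConjugate ENNReal NNReal

namespace Pool.Agent.MP_fcd29e_an.H37

open Pool.Agent.MP_fcd29e_an.H81

variable {N q : ℕ} {U : Set (E N)}

section basic

theorem frm_io (L : Lv0) (hU : IsOpen U) (h0 : (0 : E N) ∉ U) {g ψ : E N → ℂ} (hg : L2 U g)
    (hψ : Test U ψ) : Integrable (fun z => g z * ψ z) (volume.restrict U) :=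
  ((((L.t1 N U hU h0).1 g hg).2.2.1 ψ hψ.1.continuous hψ.2.1 hψ.2.2).1).integrableOn

theorem frm_dzb (L : Lv0) (hU : IsOpen U) (h0 : (0 : E N) ∉ U) {ψ : E N → ℂ} (hψ : Test U ψ)
    (j : Fin N) : Test U (dzb j ψ) :=
  (((L.t1 N U hU h0).2.2.2.1 ψ hψ).2.2.1 j).2

theorem frm_tmul (L : Lv0) (hU : IsOpen U) (h0 : (0 : E N) ∉ U) {ψ s : E N → ℂ} (hψ : Test U ψ)
    (hs : ContDiffOn ℝ ∞ s (E0 N)) : Test U fun z => s z * ψ z :=
  ((L.t1 N U hU h0).2.2.2.1 ψ hψ).1 s (hs.mono fun _ hz h => h0 (h ▸ hz))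

theorem frm_lmul (L : Lv0) (hU : IsOpen U) (h0 : (0 : E N) ∉ U) {g s : E N → ℂ} (hg : L2 U g)
    (hs : ContinuousOn s (E0 N)) : L2 U fun z => s z * g z :=
  ((L.t1 N U hU h0).1 g hg).2.2.2.2.1 s hs

theorem frm_ladd (L : Lv0) (hU : IsOpen U) (h0 : (0 : E N) ∉ U) {g g' : E N → ℂ} (hg : L2 U g)
    (hg' : L2 U g') : L2 U fun z => g z + g' z :=
  (((L.t1 N U hU h0).1 g hg).2.2.2.1 g' hg').1

theorem frm_lsum (L : Lv0) (hU : IsOpen U) (h0 : (0 : E N) ∉ U) {ι : Type} (s : Finset ι)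
    {F : ι → E N → ℂ} (hF : ∀ i ∈ s, L2 U (F i)) : L2 U fun z => ∑ i ∈ s, F i z :=
  (L.t1 N U hU h0).2.1 ι s F hF

theorem frm_lwd (L : Lv0) (hU : IsOpen U) (h0 : (0 : E N) ∉ U) {γ : Fin N → E N → ℂ}
    (hγ : ∀ j, ContinuousOn (γ j) (E0 N)) {u : Arr N q} (hu : ∀ J, L2 U (u J))
    (J : Fin (q + 1) → Fin N) : L2 U (wd γ u J) :=
  frm_lsum L hU h0 Finset.univ (F := fun (a : Fin (q + 1)) z =>
    (-1) ^ (a : ℕ) * γ (J a) z * u (a.removeNth J) z) fun _ _ =>
      frm_lmul L hU h0 (hu _) (continuousOn_const.mul (hγ _))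

/-- The integrand on the left of `DB` is integrable. -/
theorem frm_il (L : Lv0) (hU : IsOpen U) (h0 : (0 : E N) ∉ U) {u : Arr N q} (hu : ∀ J, L2 U (u J))
    (J : Fin (q + 1) → Fin N) {ψ : E N → ℂ} (hψ : Test U ψ) :
    Integrable (fun z => ∑ i : Fin (q + 1), (-1) ^ (i : ℕ) * u (i.removeNth J) z * dzb (J i) ψ z)
      (volume.restrict U) :=
  integrable_finsetSum _ fun i _ =>
    frm_io L hU h0 (frm_lmul L hU h0 (hu _) (s := fun _ => (-1) ^ (i : ℕ)) continuousOn_const)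
      (frm_dzb L hU h0 hψ _)

theorem frm_contOn_dzb {s : E N → ℂ} (hs : ContDiffOn ℝ ∞ s (E0 N)) (j : Fin N) :
    ContinuousOn (dzb j s) (E0 N) := fun _ hz =>
  (contDiffAt_dzb j (hs.contDiffAt (isOpen_E0.mem_nhds hz))).continuousAt.continuousWithinAt

end basic

theorem frm_congr (hU : IsOpen U) {u u' : Arr N q} {f f' : Arr N (q + 1)} (h : DB U u f)
    (hu : ∀ J, ∀ᵐ z, z ∈ U → u J z = u' J z) (hf : ∀ J, ∀ᵐ z, z ∈ U → f J z = f' J z) :
    DB U u' f' := by
  intro J ψ hψ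
  have h1 : ∫ z in U, ∑ i : Fin (q + 1), (-1) ^ (i : ℕ) * u' (i.removeNth J) z * dzb (J i) ψ z =
      ∫ z in U, ∑ i : Fin (q + 1), (-1) ^ (i : ℕ) * u (i.removeNth J) z * dzb (J i) ψ z := by
    refine setIntegral_congr_ae hU.measurableSet ?_
    filter_upwards [ae_all_iff.2 hu] with z hz hzU
    simp only [fun K => hz K hzU]
  have h2 : ∫ z in U, f' J z * ψ z = ∫ z in U, f J z * ψ z := by
    refine setIntegral_congr_ae hU.measurableSet ?_
    filter_upwards [hf J] with z hz hzU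
    rw [hz hzU]
  rw [h1, h2, h J ψ hψ]

theorem frm_mono (hU : IsOpen U) {u : Arr N q} {f : Arr N (q + 1)} (h : DB U u f) {V : Set (E N)}
    (hVU : V ⊆ U) : DB V u f := by
  intro J ψ hψ
  have hz : ∀ z ∉ V, ψ =ᶠ[𝓝 z] fun _ => 0 := fun z hz =>
    notMem_tsupport_iff_eventuallyEq.1 fun h => hz (hψ.2.2 h)
  rw [← setIntegral_eq_of_subset_of_forall_sdiff_eq_zero hU.measurableSet hVU,
    ← setIntegral_eq_of_subset_of_forall_sdiff_eq_zero hU.measurableSet hVU]
  · exact h J ψ ⟨hψ.1, hψ.2.1, hψ.2.2.trans hVU⟩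
  · intro z hzz
    rw [(hz z hzz.2).self_of_nhds, mul_zero]
  · intro z hzz
    simp only [fun j => dzb_congr (hz z hzz.2) j, dzb_const, mul_zero, Finset.sum_const_zero]

theorem frm_smul {u : Arr N q} {f : Arr N (q + 1)} (h : DB U u f) (c : ℂ) :
    DB U (fun J z => c * u J z) fun J z => c * f J z := by
  intro J ψ hψ
  have := congrArg (c * ·) (h J ψ hψ)
  simp only [mul_neg, ← integral_const_mul, Finset.mul_sum] at this
  simp only [mul_assoc] at this ⊢
  rw [← this]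
  refine integral_congr_ae (Eventually.of_forall fun z => Finset.sum_congr rfl fun i _ => ?_)
  ring

theorem frm_closed (L : Lv0) (hU : IsOpen U) (h0 : (0 : E N) ∉ U) {u : Arr N q}
    {f : Arr N (q + 1)} (h : DB U u f) (hu : ∀ J, L2 U (u J)) (hf : ∀ J, L2 U (f J)) :
    DB U f 0 := by
  intro J ψ hψ
  have h1 : ∀ a : Fin (q + 1 + 1), ∫ z in U, (-1) ^ (a : ℕ) * f (a.removeNth J) z * dzb (J a) ψ z =
      -∫ z in U, (-1) ^ (a : ℕ) * ∑ b : Fin (q + 1), (-1) ^ (b : ℕ) *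
        u (b.removeNth (a.removeNth J)) z * dzb (a.removeNth J b) (dzb (J a) ψ) z := by
    intro a
    rw [integral_const_mul, h _ _ (frm_dzb L hU h0 hψ (J a)), mul_neg, neg_neg,
      ← integral_const_mul]
    simp only [mul_assoc]
  rw [integral_finsetSum _ fun (a : Fin (q + 1 + 1)) _ => frm_io L hU h0
    (frm_lmul L hU h0 (hf _) (s := fun _ => (-1) ^ (a : ℕ)) continuousOn_const)
    (frm_dzb L hU h0 hψ _)]
  simp only [h1, Finset.sum_neg_distrib]
  rw [← integral_finsetSum _ fun a _ =>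
    (frm_il L hU h0 hu _ (frm_dzb L hU h0 hψ (J a))).const_mul _]
  have h2 : ∀ z, ∑ a : Fin (q + 1 + 1), (-1) ^ (a : ℕ) * ∑ b : Fin (q + 1), (-1) ^ (b : ℕ) *
      u (b.removeNth (a.removeNth J)) z * dzb (a.removeNth J b) (dzb (J a) ψ) z = 0 := by
    intro z
    have := ((L.al1 N q 0 0).1 fun K => u K z).2.2.2.2.2.2.1 (fun i j => dzb j (dzb i ψ) z)
      (fun i j => dzb_dzb_comm j i hψ.1.contDiffAt) J
    rw [← this]
    refine Finset.sum_congr rfl fun a _ => ?_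
    rw [Finset.mul_sum]
    exact Finset.sum_congr rfl fun b _ => by ring
  simp [h2]

theorem frm_mul (L : Lv0) (hU : IsOpen U) (h0 : (0 : E N) ∉ U) {u : Arr N q}
    {f : Arr N (q + 1)} (h : DB U u f) (hu : ∀ J, L2 U (u J)) (hf : ∀ J, L2 U (f J))
    {s : E N → ℂ} (hs : ContDiffOn ℝ ∞ s (E0 N)) : DB U (fun J z => s z * u J z)
      fun J z => s z * f J z + wd (fun j => dzb j s) u J z := by
  intro J ψ hψ
  have h1 := h J _ (frm_tmul L hU h0 hψ hs)
  have i1 := frm_il L hU h0 (u := fun J z => s z * u J z)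
    (fun K => frm_lmul L hU h0 (hu K) hs.continuousOn) J hψ
  have i2 := frm_io L hU h0 (frm_lwd L hU h0 (frm_contOn_dzb hs) hu J) hψ
  have i3 := frm_io L hU h0 (frm_lmul L hU h0 (hf J) hs.continuousOn) hψ
  have h2 : ∫ z in U, ∑ i : Fin (q + 1), (-1) ^ (i : ℕ) * u (i.removeNth J) z *
      dzb (J i) (fun z => s z * ψ z) z =
      ∫ z in U, (∑ i : Fin (q + 1), (-1) ^ (i : ℕ) * (s z * u (i.removeNth J) z) * dzb (J i) ψ z +
        wd (fun j => dzb j s) u J z * ψ z) := by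
    refine setIntegral_congr_fun hU.measurableSet fun z hz => ?_
    have hd : DifferentiableAt ℝ s z :=
      ContDiffAt.da (hs.contDiffAt (isOpen_E0.mem_nhds fun h => h0 (h ▸ hz)))
    simp only [wd, wdA, Finset.sum_mul, ← Finset.sum_add_distrib,
      fun j => dzb_mul j hd (ContDiffAt.da (z := z) hψ.1.contDiffAt)]
    exact Finset.sum_congr rfl fun i _ => by ring
  have h3 : ∫ z in U, f J z * (s z * ψ z) = ∫ z in U, s z * f J z * ψ z :=
    integral_congr_ae (Eventually.of_forall fun z => by ring)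
  rw [h2, integral_add i1 i2, h3] at h1
  simp only [add_mul]
  rw [integral_add i3 i2]
  linear_combination h1

theorem frm_sum (L : Lv0) (hU : IsOpen U) (h0 : (0 : E N) ∉ U) {ι : Type} (s : Finset ι)
    {u : ι → Arr N q} {f : ι → Arr N (q + 1)}
    (h : ∀ i ∈ s, DB U (u i) (f i) ∧ (∀ J, L2 U (u i J)) ∧ ∀ J, L2 U (f i J)) :
    DB U (fun J z => ∑ i ∈ s, u i J z) fun J z => ∑ i ∈ s, f i J z := by
  intro J ψ hψ
  have h1 : ∀ z, ∑ a : Fin (q + 1), (-1) ^ (a : ℕ) * (∑ i ∈ s, u i (a.removeNth J) z) *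
      dzb (J a) ψ z = ∑ i ∈ s, ∑ a : Fin (q + 1), (-1) ^ (a : ℕ) * u i (a.removeNth J) z *
        dzb (J a) ψ z := by
    intro z
    rw [Finset.sum_comm]
    simp only [Finset.mul_sum, Finset.sum_mul]
  simp only [h1, Finset.sum_mul s]
  rw [integral_finsetSum _ fun i hi => frm_il L hU h0 (h i hi).2.1 J hψ,
    integral_finsetSum _ fun i hi => frm_io L hU h0 ((h i hi).2.2 J) hψ, ← Finset.sum_neg_distrib]
  exact Finset.sum_congr rfl fun i hi => (h i hi).1 J ψ hψ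

theorem frm_sub (L : Lv0) (hU : IsOpen U) (h0 : (0 : E N) ∉ U) {u u' : Arr N q}
    {f f' : Arr N (q + 1)} (h : DB U u f) (h' : DB U u' f') (hu : ∀ J, L2 U (u J) ∧ L2 U (u' J))
    (hf : ∀ J, L2 U (f J) ∧ L2 U (f' J)) :
    DB U (fun J z => u J z - u' J z) fun J z => f J z - f' J z := by
  intro J ψ hψ
  simp only [mul_sub, sub_mul, Finset.sum_sub_distrib]
  rw [integral_sub (frm_il L hU h0 (fun K => (hu K).1) J hψ)
    (frm_il L hU h0 (fun K => (hu K).2) J hψ),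
    integral_sub (frm_io L hU h0 (hf J).1 hψ) (frm_io L hU h0 (hf J).2 hψ), h J ψ hψ, h' J ψ hψ]
  ring

theorem frm_log_smooth : ContDiffOn ℝ ∞ (cx fun w : E N => Real.log (‖w‖ ^ 2)) (E0 N) := by
  intro z hz
  have hz' : ‖z‖ ^ 2 ≠ 0 := pow_ne_zero _ (norm_ne_zero_iff.2 hz)
  exact (contDiffAt_cx ((contDiff_norm_sq ℝ).contDiffAt.log hz')).contDiffWithinAt

theorem frm_log_dzb (j : Fin N) {z : E N} (hz : z ≠ 0) :
    dzb j (cx fun w : E N => Real.log (‖w‖ ^ 2)) z = thb j z := by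
  have hz' : ‖z‖ ^ 2 ≠ 0 := pow_ne_zero _ (norm_ne_zero_iff.2 hz)
  have hd : DifferentiableAt ℝ (fun w : E N => ‖w‖ ^ 2) z :=
    ((contDiff_norm_sq ℝ (n := 1)).differentiable (by simp)).differentiableAt
  rw [dzb_comp_real j hd (Real.hasDerivAt_log hz'), dzb_normSq, thb]
  push_cast
  ring

theorem frm_thb (L : Lv0) (hU : IsOpen U) (h0 : (0 : E N) ∉ U) {u : Arr N q}
    {f : Arr N (q + 1)} (h : DB U u f) (hu : ∀ J, L2 U (u J)) (hf : ∀ J, L2 U (f J)) :
    DB U (wd thb u) fun J z => -wd thb f J z := by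
  have hs := frm_log_smooth (N := N)
  set s := cx fun w : E N => Real.log (‖w‖ ^ 2) with hsdef
  have hz : L2 U fun _ => 0 := (L.t1 N U hU h0).2.2.1 _ continuousOn_const
  have l1 := fun J => frm_lmul L hU h0 (hf J) hs.continuousOn
  have l2 := fun J => frm_ladd L hU h0 (l1 J) (frm_lwd L hU h0 (frm_contOn_dzb hs) hu J)
  have h1 := frm_closed L hU h0 (frm_mul L hU h0 h hu hf hs)
    (fun J => frm_lmul L hU h0 (hu J) hs.continuousOn) l2
  have h2 := frm_mul L hU h0 (frm_closed L hU h0 h hu hf) hf (fun _ => hz) hs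
  have h3 := frm_sub L hU h0 h1 h2 (fun J => ⟨l2 J, l1 J⟩) fun J => ⟨hz,
    frm_ladd L hU h0 (frm_lmul L hU h0 hz hs.continuousOn)
      (frm_lwd L hU h0 (frm_contOn_dzb hs) hf J)⟩
  have h4 : ∀ z ∈ U, (fun j => dzb j s z) = fun j => thb j z := fun z hz =>
    funext fun j => frm_log_dzb j fun h => h0 (h ▸ hz)
  refine frm_congr hU h3 (fun J => Eventually.of_forall fun z hz => ?_)
    fun J => Eventually.of_forall fun z hz => ?_
  · simp only [wd, h4 z hz]; ring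
  · simp only [wd, h4 z hz, Pi.zero_apply]; ring

theorem frm_remove (l : Fin N) (J : Fin (q + 1) → Fin N) (i : Fin (q + 1)) :
    i.succ.removeNth (Fin.cons l J : Fin (q + 1 + 1) → Fin N) = Fin.cons l (i.removeNth J) := by
  funext k
  refine Fin.cases ?_ (fun k => ?_) k <;> simp [Fin.removeNth]

theorem frm_ib (L : Lv0) (hU : IsOpen U) (h0 : (0 : E N) ∉ U) {m : ℤ} {y : Arr N (q + 1)}
    {h : Arr N (q + 1 + 1)} (hc : Cone U) (hd : DB U y h)
    (hy : ∀ J, L2 U (y J) ∧ Hom U m (-(q + 1 : ℕ)) (y J)) (hh : ∀ J, L2 U (h J))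
    (ha : ∀ z ∈ U, altA fun J => y J z) : DB U (ib y) fun J z => -ib h J z := by
  intro J ψ hψ
  have hcj : ∀ l : Fin N, ContDiff ℝ ∞ fun z : E N => conj (z l) := fun l =>
    contDiff_iff_contDiffAt.2 fun z => contDiffAt_conj (contDiff_coord l).contDiffAt
  have hT : ∀ l : Fin N, Test U fun z : E N => conj (z l) * ψ z := fun l =>
    frm_tmul L hU h0 hψ (hcj l).contDiffOn
  have h1 := Finset.sum_congr rfl fun l (_ : l ∈ Finset.univ) => hd (Fin.cons l J) _ (hT l)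
  rw [← integral_finsetSum _ fun l _ => frm_il L hU h0 (fun K => (hy K).1) _ (hT l),
    Finset.sum_neg_distrib,
    ← integral_finsetSum _ fun l _ => frm_io L hU h0 (hh _) (hT l)] at h1
  obtain ⟨hA, -, -, hE, -⟩ := (L.t2 N m (-(q + 1 : ℕ))).1 U hU hc
  have h2 := hE _ (hy J).1 (hA _ (hy J).2) ψ hψ
  have i1 := frm_io L hU h0 (hy J).1 hψ
  have i2 : Integrable (fun z => y J z * ∑ j, conj (z j) * dzb j ψ z) (volume.restrict U) := by
    simp only [Finset.mul_sum]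
    exact integrable_finsetSum _ fun l _ => frm_io L hU h0 (hy J).1
      (frm_tmul L hU h0 (frm_dzb L hU h0 hψ l) (hcj l).contDiffOn)
  have i3 := frm_il L hU h0 (u := ib y) (fun K => frm_lsum L hU h0 Finset.univ
    (F := fun l z => conj (z l) * y (Fin.cons l K) z) fun l _ =>
      frm_lmul L hU h0 (hy _).1 (hcj l).continuous.continuousOn) J hψ
  have h3 : ∫ z in U, ∑ l : Fin N, ∑ i : Fin (q + 1 + 1), (-1) ^ (i : ℕ) *
      y (i.removeNth (Fin.cons l J : Fin (q + 1 + 1) → Fin N)) z *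
        dzb ((Fin.cons l J : Fin (q + 1 + 1) → Fin N) i) (fun z : E N => conj (z l) * ψ z) z =
      ∫ z in U, (((N : ℂ) - (q + 1)) * (y J z * ψ z) + y J z * ∑ j, conj (z j) * dzb j ψ z -
        ∑ i : Fin (q + 1), (-1) ^ (i : ℕ) * ib y (i.removeNth J) z * dzb (J i) ψ z) := by
    refine setIntegral_congr_fun hU.measurableSet fun z hz => ?_
    have hp : ∀ j l : Fin N, dzb j (fun z : E N => conj (z l) * ψ z) z =
        (if j = l then ψ z else 0) + conj (z l) * dzb j ψ z := by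
      intro j l
      rw [dzb_mul j (ContDiffAt.da (hcj l).contDiffAt) (ContDiffAt.da hψ.1.contDiffAt),
        dzb_coord_conj]
      split_ifs <;> simp
    have hal := ((L.al1 N q 0 0).2 (fun K => y K z) (ha z hz)).2.2.2.2 J
    have e1 : ∑ l : Fin N, ∑ i : Fin (q + 1), (-1) ^ (i : ℕ) *
        y (Fin.cons l (i.removeNth J)) z * (if J i = l then ψ z else 0) =
          (q + 1) * (y J z * ψ z) := by
      rw [Finset.sum_comm]
      simp only [mul_ite, mul_zero, Finset.sum_ite_eq, Finset.mem_univ, if_true, hal]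
      simp
    have e2 : ∑ l : Fin N, ∑ i : Fin (q + 1), (-1) ^ (i : ℕ) *
        y (Fin.cons l (i.removeNth J)) z * (conj (z l) * dzb (J i) ψ z) =
          ∑ i : Fin (q + 1), (-1) ^ (i : ℕ) * ib y (i.removeNth J) z * dzb (J i) ψ z := by
      rw [Finset.sum_comm]
      refine Finset.sum_congr rfl fun i _ => ?_
      simp only [ib, ibA, Finset.mul_sum, Finset.sum_mul]
      exact Finset.sum_congr rfl fun l _ => by ring
    simp only [Fin.sum_univ_succ (n := q + 1), Fin.removeNth_zero, Fin.tail_cons, Fin.cons_zero,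
      Fin.cons_succ, frm_remove, hp, Fin.val_zero, Fin.val_succ, pow_zero, pow_succ, if_true,
      mul_add, Finset.sum_add_distrib, mul_neg, neg_mul, mul_one, one_mul, Finset.sum_neg_distrib,
      e1, e2, Finset.mul_sum, Finset.sum_const, Finset.card_univ, Fintype.card_fin, nsmul_eq_mul]
    ring
  have i4 : Integrable (fun z => ((N : ℂ) - (q + 1)) * (y J z * ψ z) +
      y J z * ∑ j, conj (z j) * dzb j ψ z) (volume.restrict U) := (i1.const_mul _).add i2
  rw [h3, integral_sub i4 i3, integral_add (i1.const_mul _) i2,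
    integral_const_mul, h2] at h1
  have h4 : ∫ z in U, -ib h J z * ψ z =
      -∫ z in U, ∑ l : Fin N, h (Fin.cons l J) z * (conj (z l) * ψ z) := by
    rw [← integral_neg]
    refine integral_congr_ae (Eventually.of_forall fun z => ?_)
    simp only [ib, ibA, neg_mul, Finset.sum_mul]
    exact congrArg _ (Finset.sum_congr rfl fun l _ => by ring)
  rw [h4]
  push_cast at h1
  linear_combination -h1

theorem frm (L : Lv0) : StmtFRM := fun _ _ _ hU h0 =>
  ⟨fun _ _ h => ⟨fun _ _ hu hf => frm_congr hU h hu hf, fun _ _ hV => frm_mono hU h hV,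
    frm_smul h, fun hu hf => ⟨frm_closed L hU h0 h hu hf, fun _ hs => frm_mul L hU h0 h hu hf hs,
      frm_thb L hU h0 h hu hf⟩⟩,
    fun _ s _ _ h => frm_sum L hU h0 s h,
    fun _ _ _ _ h h' hu hf => frm_sub L hU h0 h h' hu hf,
    fun _ _ _ hc hd hy hh ha => frm_ib L hU h0 hc hd hy hh ha⟩

end Pool.Agent.MP_fcd29e_an.H37
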