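import Pool.Agent.MP_fcd29e_an.H81.Spec2

/-!
The basic inequality for test forms.
-/

set_option autoImplicit false

open MeasureTheory Complex Set Filter Topology Metric
open scoped ContDiff ComplexConjugate ENNReal NNReal

namespace Pool.Agent.MP_fcd29e_an.H37

open Pool.Agent.MP_fcd29e_an.H81

variable {N : ℕ}

theorem h1_cyc {M : Type} [AddCommMonoid M] (f : Fin N → Fin N → Fin N → M) :
    ∑ i, ∑ j, ∑ k, f i j k = ∑ j, ∑ k, ∑ i, f i j k := by
  rw [Finset.sum_comm]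
  exact Finset.sum_congr rfl fun _ _ => Finset.sum_comm

theorem h1_re (a : ℂ) : (a * conj a).re = ‖a‖ ^ 2 := by
  rw [Complex.mul_conj, ofReal_re, Complex.normSq_eq_norm_sq]

theorem h1_nn (y : Fin N → Fin N → Fin N → ℂ) (t : ℝ) :
    0 ≤ (∑ i, ∑ j, ∑ k, ‖y i j k‖ ^ 2) * Real.exp t := by positivity

theorem h1_c3 {D : Set (E N)} {y : Fin N → Fin N → Fin N → E N → ℂ}
    (hy : ∀ i j k, ContinuousOn (y i j k) D) :
    ContinuousOn (fun z => ∑ i, ∑ j, ∑ k, ‖y i j k z - y j i k z + y k i j z‖ ^ 2) D := by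
  fun_prop

theorem h1_c2 {D : Set (E N)} {y : Fin N → Fin N → E N → ℂ} (hy : ∀ j k, ContinuousOn (y j k) D) :
    ContinuousOn (fun z => ∑ k, ‖∑ j, y j k z‖ ^ 2) D := by
  fun_prop

theorem h1_alg (y : Fin N → Fin N → Fin N → ℂ) (hy : ∀ i j k, y i j k = -y i k j) :
    ∑ i, ∑ j, ∑ k, ‖y i j k - y j i k + y k i j‖ ^ 2 =
      3 * ∑ i, ∑ j, ∑ k, ‖y i j k‖ ^ 2 - 6 * ∑ i, ∑ j, ∑ k, (y i j k * conj (y j i k)).re := by
  have h1 : ∀ a b c : ℂ, ‖a - b + c‖ ^ 2 = ‖a‖ ^ 2 + ‖b‖ ^ 2 + ‖c‖ ^ 2 - 2 * (a * conj b).re +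
      2 * (a * conj c).re - 2 * (b * conj c).re := by
    intro a b c
    simp only [← h1_re, mul_re, add_re, sub_re, add_im, sub_im, conj_re, conj_im]
    ring
  have s2 : ∑ i, ∑ j, ∑ k, ‖y j i k‖ ^ 2 = ∑ i, ∑ j, ∑ k, ‖y i j k‖ ^ 2 := Finset.sum_comm
  have s3 : ∑ i, ∑ j, ∑ k, ‖y k i j‖ ^ 2 = ∑ i, ∑ j, ∑ k, ‖y i j k‖ ^ 2 :=
    (h1_cyc fun i j k => ‖y i j k‖ ^ 2).symm
  have t2 : ∑ i, ∑ j, ∑ k, (y i j k * conj (y k i j)).re =
      -∑ i, ∑ j, ∑ k, (y i j k * conj (y j i k)).re := by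
    simp only [← Finset.sum_neg_distrib]
    refine Finset.sum_congr rfl fun i _ => ?_
    rw [Finset.sum_comm]
    refine Finset.sum_congr rfl fun j _ => Finset.sum_congr rfl fun k _ => ?_
    rw [hy i k j, neg_mul, neg_re]
  have t3 : ∑ i, ∑ j, ∑ k, (y j i k * conj (y k i j)).re =
      ∑ i, ∑ j, ∑ k, (y i j k * conj (y j i k)).re := by
    rw [h1_cyc]
    refine Finset.sum_congr rfl fun j _ => Finset.sum_congr rfl fun k _ =>
      Finset.sum_congr rfl fun i _ => ?_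
    rw [hy j i k, hy k i j, map_neg, neg_mul_neg]
  simp only [h1, Finset.sum_add_distrib, Finset.sum_sub_distrib, ← Finset.mul_sum, s2, s3, t2, t3]
  ring

/-- The weight as a complex function. -/
noncomputable abbrev h1w (φ : E N → ℝ) : E N → ℂ := cx fun y => Real.exp (-φ y)

/-- The two fluxes. -/
noncomputable def h1T (φ : E N → ℝ) (i j : Fin N) (a b : E N → ℂ) (z : E N) : ℂ :=
  dz i (fun y => conj (dl φ j b y) * h1w φ y * a y) z -
    dzb j (fun y => conj (dzb i b y) * h1w φ y * a y) z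

theorem h1_w_smooth {φ : E N → ℝ} {z : E N} (hφ : ContDiffAt ℝ ∞ φ z) :
    ContDiffAt ℝ ∞ (h1w φ) z := contDiffAt_cx hφ.neg.exp

theorem h1_dl_smooth {φ : E N → ℝ} {b : E N → ℂ} {z : E N} (hφ : ContDiffAt ℝ ∞ φ z)
    (hb : ContDiffAt ℝ ∞ b z) (j : Fin N) : ContDiffAt ℝ ∞ (dl φ j b) z :=
  (contDiffAt_dz j hb).sub ((contDiffAt_dz j (contDiffAt_cx hφ)).mul hb)

theorem h1T_eq (L : Lv0) {φ : E N → ℝ} {a b : E N → ℂ} {z : E N} (hφ : ContDiffAt ℝ ∞ φ z)
    (ha : ContDiffAt ℝ ∞ a z) (hb : ContDiffAt ℝ ∞ b z) (i j : Fin N) :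
    h1T φ i j a b z = (dl φ i a z * conj (dl φ j b z) - dzb j a z * conj (dzb i b z) -
      dz i (dzb j (cx φ)) z * conj (b z) * a z) * (Real.exp (-φ z) : ℝ) := by
  have hw := ContDiffAt.da (h1_w_smooth hφ)
  have hφd : DifferentiableAt ℝ φ z := hφ.differentiableAt (by simp)
  have he : HasDerivAt (fun s : ℝ => Real.exp (-s)) (Real.exp (-φ z) * -1) (φ z) :=
    (hasDerivAt_neg (φ z)).exp
  have w1 : dz i (h1w φ) z = _ := dz_comp_real (χ := fun s => Real.exp (-s)) i hφd he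
  have w2 : dzb j (h1w φ) z = _ := dzb_comp_real (χ := fun s => Real.exp (-s)) j hφd he
  have c1 := differentiableAt_conj (ContDiffAt.da (h1_dl_smooth hφ hb j))
  have c2 := differentiableAt_conj (ContDiffAt.da (contDiffAt_dzb i hb))
  have hφc := contDiffAt_cx hφ
  have d1 : dzb i (dl φ j b) z = dz j (dzb i b) z - (dz j (dzb i (cx φ)) z * b z +
      dz j (cx φ) z * dzb i b z) := by
    have : dl φ j b = fun y => dz j b y - dz j (cx φ) y * b y := rfl
    rw [this, dzb_sub i (ContDiffAt.da (contDiffAt_dz j hb))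
      ((ContDiffAt.da (contDiffAt_dz j hφc)).fun_mul (ContDiffAt.da hb)),
      dzb_mul i (ContDiffAt.da (contDiffAt_dz j hφc)) (ContDiffAt.da hb), dz_dzb_comm j i hb,
      dz_dzb_comm j i hφc]
  have h2 := ((L.pf N).2.2.1 φ z hφ).1 j i
  rw [h1T, dz_mul i (c1.fun_mul hw) (ContDiffAt.da ha), dz_mul i c1 hw,
    dzb_mul j (c2.fun_mul hw) (ContDiffAt.da ha), dzb_mul j c2 hw, dz_conj, dzb_conj, w1, w2, d1,
    dzb_cx]
  simp only [dl, map_sub, map_add, map_mul, h2, h1w, cx, ofReal_mul, ofReal_neg, ofReal_one]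
  ring

theorem h1T_int (L : Lv0) {D : Set (E N)} (hD : IsOpen D) (h0 : (0 : E N) ∉ D) {φ : E N → ℝ}
    {a b : E N → ℂ} (hφ : ContDiffOn ℝ ∞ φ D) (ha : Test D a) (hb : Test D b) (i j : Fin N) :
    Integrable (h1T φ i j a b) (volume.restrict D) ∧ ∫ z in D, h1T φ i j a b z = 0 := by
  obtain ⟨-, -, -, hT, -, hS, -⟩ := L.t1 N D hD h0
  have hφa := fun z (hz : z ∈ D) => hφ.contDiffAt (hD.mem_nhds hz)
  have t1 : Test D fun y => conj (dl φ j b y) * h1w φ y * a y :=
    (hT a ha).1 _ fun z hz => ((contDiffAt_conj (h1_dl_smooth (hφa z hz) hb.1.contDiffAt j)).mul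
      (h1_w_smooth (hφa z hz))).contDiffWithinAt
  have t2 : Test D fun y => conj (dzb i b y) * h1w φ y * a y :=
    (hT a ha).1 _ fun z hz => ((contDiffAt_conj (contDiffAt_dzb i hb.1.contDiffAt)).mul
      (h1_w_smooth (hφa z hz))).contDiffWithinAt
  have u1 := ((hT _ t1).2.2.1 i).1
  have u2 := ((hT _ t2).2.2.1 j).2
  have i1 := (u1.1.continuous.integrable_of_hasCompactSupport (μ := volume) u1.2.1).restrict
    (s := D)
  have i2 := (u2.1.continuous.integrable_of_hasCompactSupport (μ := volume) u2.2.1).restrict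
    (s := D)
  have z1 := ((hS (fun _ => 1) contDiffOn_const).2 i).2 _ t1
  have z2 := ((hS (fun _ => 1) contDiffOn_const).2 j).1 _ t2
  simp only [one_mul, dz_const, dzb_const, zero_mul, integral_zero, neg_zero] at z1 z2
  refine ⟨i1.sub i2, ?_⟩
  simp only [h1T]
  rw [integral_sub i1 i2, z1, z2, sub_zero]

theorem h1_pt (L : Lv0) {φ : E N → ℝ} {x : Fin N → Fin N → E N → ℂ} {z : E N}
    (hφ : ContDiffAt ℝ ∞ φ z) (hx : ∀ j k, ContDiffAt ℝ ∞ (x j k) z)
    (ha : ∀ j k z, x j k z = -x k j z) :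
    QQ φ z (fun j k => x j k z) * Real.exp (-φ z) ≤ 1 / 3 * ((∑ i, ∑ j, ∑ k,
      ‖dl φ i (x j k) z - dl φ j (x i k) z + dl φ k (x i j) z‖ ^ 2) * Real.exp (-φ z)) +
      2 * ((∑ k, ‖∑ j, dzb j (x j k) z‖ ^ 2) * Real.exp (-φ z)) -
      ((∑ i, ∑ j, ∑ k, h1T φ i i (x j k) (x j k) z).re -
        2 * (∑ i, ∑ j, ∑ k, h1T φ i j (x j k) (x i k) z).re) := by
  have hy : ∀ i j k, dl φ i (x j k) z = -dl φ i (x k j) z := by
    intro i j k
    have e : x j k = fun y => (-1 : ℂ) * x k j y := funext fun y => by rw [ha j k y]; ring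
    rw [dl, dl, ha j k z]
    conv_lhs => rw [e]
    rw [dz_const_mul i _ (ContDiffAt.da (hx k j))]
    ring
  have e1 := h1_alg (fun i j k => dl φ i (x j k) z) hy
  have e2 : ∀ k, ‖∑ j, dzb j (x j k) z‖ ^ 2 =
      ∑ i, ∑ j, (dzb j (x j k) z * conj (dzb i (x i k) z)).re := by
    intro k
    rw [← h1_re, map_sum, Finset.sum_mul_sum, Finset.sum_comm]
    simp only [re_sum]
  have e3 : ∑ k, ‖∑ j, dzb j (x j k) z‖ ^ 2 =
      ∑ i, ∑ j, ∑ k, (dzb j (x j k) z * conj (dzb i (x i k) z)).re := by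
    simp only [e2]
    exact h1_cyc _
  have e4 : ∑ k, (hess (cx φ) z fun i => conj (x i k z)).re =
      ∑ i, ∑ j, ∑ k, (dz i (dzb j (cx φ)) z * conj (x i k z) * x j k z).re := by
    simp only [hess, re_sum, conj_conj]
    exact h1_cyc _
  have e5 : (∑ i, dz i (dzb i (cx φ)) z).re * ∑ j, ∑ k, ‖x j k z‖ ^ 2 =
      ∑ i, ∑ j, ∑ k, (dz i (dzb i (cx φ)) z * conj (x j k z) * x j k z).re := by
    rw [re_sum, Finset.sum_mul]
    refine Finset.sum_congr rfl fun i _ => ?_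
    simp only [Finset.mul_sum]
    refine Finset.sum_congr rfl fun j _ => Finset.sum_congr rfl fun k _ => ?_
    rw [mul_assoc, Complex.conj_mul', ← ofReal_pow, re_mul_ofReal]
  have e6 : 0 ≤ (∑ i, ∑ j, ∑ k, ‖dzb i (x j k) z‖ ^ 2) * Real.exp (-φ z) := h1_nn _ _
  have e7 : ∀ i i' j k j' k', (h1T φ i i' (x j k) (x j' k') z).re =
      ((dl φ i (x j k) z * conj (dl φ i' (x j' k') z)).re -
        (dzb i' (x j k) z * conj (dzb i (x j' k') z)).re -
        (dz i (dzb i' (cx φ)) z * conj (x j' k' z) * x j k z).re) * Real.exp (-φ z) := by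
    intro i i' j k j' k'
    rw [h1T_eq L hφ (hx j k) (hx j' k') i i', re_mul_ofReal, sub_re, sub_re]
  rw [QQ, e1, e3, e4, e5]
  simp only [re_sum, e7, ← Finset.sum_mul, Finset.sum_sub_distrib, h1_re]
  linarith

theorem h1 (L : Lv0) : StmtH1 := by
  intro N D φ x hD h0 hφ hx ha
  have hφa := fun z (hz : z ∈ D) => hφ.contDiffAt (hD.mem_nhds hz)
  by_cases hQ : Integrable (fun z => QQ φ z (fun j k => x j k z) * Real.exp (-φ z))
    (volume.restrict D)
  swap
  · rw [integral_undef hQ]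
    exact add_nonneg (mul_nonneg (by norm_num) (integral_nonneg fun z => h1_nn _ _))
      (mul_nonneg (by norm_num) (integral_nonneg fun z =>
        mul_nonneg (Finset.sum_nonneg fun _ _ => sq_nonneg _) (Real.exp_pos _).le))
  have hK : IsCompact (⋃ j, ⋃ k, tsupport (x j k)) :=
    isCompact_iUnion fun j => isCompact_iUnion fun k => (hx j k).2.1
  have hKD : (⋃ j, ⋃ k, tsupport (x j k)) ⊆ D :=
    iUnion_subset fun j => iUnion_subset fun k => (hx j k).2.2
  have hz : ∀ z ∉ ⋃ j, ⋃ k, tsupport (x j k), ∀ j k, x j k =ᶠ[𝓝 z] fun _ => 0 := fun z hz j k =>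
    notMem_tsupport_iff_eventuallyEq.1 fun h => hz (mem_iUnion.2 ⟨j, mem_iUnion.2 ⟨k, h⟩⟩)
  have hI : ∀ f : E N → ℝ, ContinuousOn f D → (∀ z ∉ ⋃ j, ⋃ k, tsupport (x j k), f z = 0) →
      Integrable f (volume.restrict D) := fun f hf hf0 =>
    ((hf.mono hKD).integrableOn_compact hK).of_forall_sdiff_eq_zero hD.measurableSet
      fun z hz => hf0 z hz.2
  have ce : ContinuousOn (fun z => Real.exp (-φ z)) D := hφ.continuousOn.neg.rexp
  have cl : ∀ i j k, ContinuousOn (dl φ i (x j k)) D := fun i j k z hz =>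
    (h1_dl_smooth (hφa z hz) (hx j k).1.contDiffAt i).continuousAt.continuousWithinAt
  have cb : ∀ i j k, ContinuousOn (dzb i (x j k)) D := fun i j k z _ =>
    (contDiffAt_dzb i (hx j k).1.contDiffAt).continuousAt.continuousWithinAt
  have iA := hI (fun z => (∑ i, ∑ j, ∑ k,
      ‖dl φ i (x j k) z - dl φ j (x i k) z + dl φ k (x i j) z‖ ^ 2) * Real.exp (-φ z))
    ((h1_c3 (y := fun i j k => dl φ i (x j k)) cl).fun_mul ce) fun z h => by
      simp [dl, fun i j k => dz_congr (hz z h j k) i, fun j k => (hz z h j k).self_of_nhds]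
  have iB := hI (fun z => (∑ k, ‖∑ j, dzb j (x j k) z‖ ^ 2) * Real.exp (-φ z))
    ((h1_c2 (y := fun j k => dzb j (x j k)) fun j k => cb j j k).fun_mul ce) fun z h => by
      simp [fun i j k => dzb_congr (hz z h j k) i]
  have hT := fun i i' j k j' k' => h1T_int L hD h0 hφ (hx j k) (hx j' k') i i'
  have s3 : ∀ F : Fin N → Fin N → Fin N → E N → ℂ,
      (∀ i j k, Integrable (F i j k) (volume.restrict D) ∧ ∫ z in D, F i j k z = 0) →
      Integrable (fun z => (∑ i, ∑ j, ∑ k, F i j k z).re) (volume.restrict D) ∧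
        ∫ z in D, (∑ i, ∑ j, ∑ k, F i j k z).re = 0 := by
    intro F hF
    have a1 := fun i j => integrable_finsetSum Finset.univ fun k _ => (hF i j k).1
    have a2 := fun i => integrable_finsetSum Finset.univ fun j _ => a1 i j
    have a3 := integrable_finsetSum Finset.univ fun i _ => a2 i
    refine ⟨a3.re, ?_⟩
    have := integral_re a3
    simp only [RCLike.re_to_complex] at this
    rw [this, integral_finsetSum _ fun i _ => a2 i]
    simp only [fun i => integral_finsetSum Finset.univ fun j _ => a1 i j,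
      fun i j => integral_finsetSum Finset.univ fun k _ => (hF i j k).1, fun i j k => (hF i j k).2,
      Finset.sum_const_zero, zero_re]
  obtain ⟨i1, z1⟩ := s3 (fun i j k => h1T φ i i (x j k) (x j k)) fun i j k => hT i i j k j k
  obtain ⟨i2, z2⟩ := s3 (fun i j k => h1T φ i j (x j k) (x i k)) fun i j k => hT i j j k i k
  have i3 := (iA.const_mul (1 / 3)).add (iB.const_mul 2)
  have i4 := i1.sub (i2.const_mul 2)
  have key := setIntegral_mono_on hQ (i3.sub i4) hD.measurableSet fun z hz =>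
    h1_pt L (hφa z hz) (fun j k => (hx j k).1.contDiffAt) ha
  rw [integral_sub' i3 i4, integral_add' (iA.const_mul _) (iB.const_mul _),
    integral_sub' i1 (i2.const_mul _), integral_const_mul, integral_const_mul,
    integral_const_mul, z1, z2] at key
  linarith

end Pool.Agent.MP_fcd29e_an.H37
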