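import Pool.Agent.MP_fcd29e_an.H81.Spec

/-!
Weyl's lemma for the Cauchy–Riemann system.
-/

set_option autoImplicit false

open MeasureTheory Complex Set Filter Topology Metric
open scoped ContDiff ComplexConjugate ENNReal NNReal

namespace Pool.Agent.MP_fcd29e_an.H37

open Pool.Agent.MP_fcd29e_an.H81

variable {N : ℕ}

theorem w1_int_mul {g φ : E N → ℂ} (hg : Integrable g) (hφ : Continuous φ)
    (hc : HasCompactSupport φ) : Integrable fun z => g z * φ z := by
  obtain ⟨C, hC⟩ := hφ.bounded_above_of_compact_support hc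
  exact hg.mul_bdd hφ.aestronglyMeasurable (Eventually.of_forall hC)

theorem w1_set_eq {U K : Set (E N)} (hU : MeasurableSet U) (hKU : K ⊆ U) (W φ : E N → ℂ)
    (hφ : ∀ z ∉ K, φ z = 0) : ∫ z in U, W z * φ z = ∫ z, K.indicator W z * φ z := by
  rw [← integral_indicator hU]
  refine integral_congr_ae (Eventually.of_forall fun z => ?_)
  by_cases hz : z ∈ K
  · simp [hz, hKU hz]
  · by_cases hzU : z ∈ U <;> simp [hz, hzU, hφ z hz]

/-- The near part of the kernel applied to a test function. -/
theorem w1_near (L : Lv0) (hN : 1 ≤ N) {p : E N} {r : ℝ} (hr : 0 < r) {ψ : E N → ℂ}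
    (hψ : Test (ball p r) ψ) (j : Fin N) :
    Test (closedBall p (3 * r)) (fun x => ∫ y, ψ (x - y) * kk j r y) ∧
      ∀ x, dzb j (fun x => ∫ y, ψ (x - y) * kk j r y) x = ∫ y, kk j r (x - y) * dzb j ψ y := by
  obtain ⟨-, hk, -⟩ := L.bm1 N hN
  obtain ⟨-, -, -, -, -, hk⟩ := hk j
  obtain ⟨-, hki, hk0⟩ := hk r hr
  obtain ⟨hs, hd⟩ := (L.yg N).2.1 ψ (kk j r) ⟨hψ.1, hψ.2.1⟩ hki.locallyIntegrable
  have hsupp : ∀ x ∉ closedBall p (3 * r), ∫ y, ψ (x - y) * kk j r y = 0 := by
    intro x hx
    refine integral_eq_zero_of_ae (Eventually.of_forall fun y => ?_)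
    by_cases hy : 2 * r ≤ ‖y‖
    · simp [((hk0 y).2.1 hy).2]
    · have : ψ (x - y) = 0 := by
        by_contra h
        have h1 : x - y ∈ ball p r := hψ.2.2 (subset_tsupport _ h)
        apply hx
        rw [mem_ball, dist_eq_norm] at h1
        rw [mem_closedBall, dist_eq_norm]
        have : x - p = (x - y - p) + y := by abel
        rw [this]
        have := norm_add_le (x - y - p) y
        linarith [not_le.1 hy]
      simp [this]
  refine ⟨⟨hs, HasCompactSupport.intro (isCompact_closedBall p (3 * r)) hsupp, ?_⟩, fun x => ?_⟩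
  · exact closure_minimal (fun x hx => by by_contra h; exact hx (hsupp x h)) isClosed_closedBall
  · have hi : ∀ v, Integrable fun y => fderiv ℝ ψ (x - y) v * kk j r y := by
      intro v
      have hc : Continuous fun y => fderiv ℝ ψ y v :=
        (hψ.1.continuous_fderiv (by simp)).clm_apply continuous_const
      obtain ⟨C, hC⟩ := hc.bounded_above_of_compact_support (hψ.2.1.fderiv_apply ℝ v)
      exact hki.bdd_mul (hc.comp (continuous_const.sub continuous_id)).aestronglyMeasurable
        (Eventually.of_forall fun y => hC _)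
    rw [← integral_sub_left_eq_self (fun y => kk j r (x - y) * dzb j ψ y) volume x]
    simp only [dzb, hd, sub_sub_cancel]
    rw [← integral_const_mul, ← integral_add (hi _) ((hi _).const_mul I), ← integral_div]
    refine integral_congr_ae (Eventually.of_forall fun y => ?_)
    ring

/-- Symmetry of the mollifier. -/
theorem w1_fub (L : Lv0) (hN : 1 ≤ N) {r : ℝ} (hr : 0 < r) {g ψ : E N → ℂ} (hg : Integrable g)
    (hψ : Integrable ψ) : ∫ x, g x * Mo r ψ x = ∫ y, Mo r g y * ψ y := by
  obtain ⟨-, -, he, -⟩ := L.bm1 N hN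
  obtain ⟨ht, -, he⟩ := he r hr
  obtain ⟨C, hC⟩ := ht.1.continuous.bounded_above_of_compact_support ht.2
  have hi : Integrable (fun q : E N × E N => g q.1 * ψ q.2 * eta r (q.1 - q.2))
      ((volume : Measure (E N)).prod volume) :=
    (hg.mul_prod hψ).mul_bdd
      (ht.1.continuous.comp (continuous_fst.sub continuous_snd)).aestronglyMeasurable
      (Eventually.of_forall fun q => hC _)
  have := integral_integral_swap (f := fun x y => g x * ψ y * eta r (x - y)) hi
  simp only [Mo]
  calc ∫ x, g x * ∫ y, eta r (x - y) * ψ y = ∫ x, ∫ y, g x * ψ y * eta r (x - y) := by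
        refine integral_congr_ae (Eventually.of_forall fun x => ?_)
        simp only [← integral_const_mul]
        exact integral_congr_ae (Eventually.of_forall fun y => by ring)
    _ = ∫ y, ∫ x, g x * ψ y * eta r (x - y) := this
    _ = ∫ y, (∫ x, eta r (y - x) * g x) * ψ y := by
        refine integral_congr_ae (Eventually.of_forall fun y => ?_)
        simp only [← integral_mul_const]
        refine integral_congr_ae (Eventually.of_forall fun x => ?_)
        have := (he (y - x)).2.2.2.1
        rw [neg_sub] at this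
        simp only [this]; ring

/-- A smooth representative near each point. -/
theorem w1_local (L : Lv0) (hN : 1 ≤ N) {U : Set (E N)} {W : E N → ℂ} (hU : IsOpen U)
    (h0 : (0 : E N) ∉ U) (hW : LocallyIntegrableOn W U)
    (hd : ∀ l ψ, Test U ψ → ∫ z in U, W z * dzb l ψ z = 0) {p : E N} (hp : p ∈ U) :
    ∃ r > 0, ∃ F : E N → ℂ, ball p r ⊆ U ∧ ContDiff ℝ ∞ F ∧ ∀ᵐ z, z ∈ ball p r → W z = F z := by
  obtain ⟨R, hR, hRU⟩ := Metric.nhds_basis_closedBall.mem_iff.1 (hU.mem_nhds hp)
  have hr : 0 < R / 3 := by positivity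
  set r := R / 3 with hrdef
  have hK : closedBall p (3 * r) ⊆ U := by
    have : 3 * r = R := by rw [hrdef]; ring
    rwa [this]
  have hBK : ball p r ⊆ closedBall p (3 * r) :=
    ball_subset_closedBall.trans (closedBall_subset_closedBall (by linarith))
  have hBU : ball p r ⊆ U := hBK.trans hK
  set g := (closedBall p (3 * r)).indicator W with hgdef
  have hg : Integrable g :=
    (integrable_indicator_iff measurableSet_closedBall).2
      (hW.integrableOn_compact_subset hK (isCompact_closedBall _ _))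
  obtain ⟨-, -, he, -⟩ := L.bm1 N hN
  have hF : ContDiff ℝ ∞ (Mo r g) := ((L.yg N).2.1 _ g (he r hr).1 hg.locallyIntegrable).1
  refine ⟨r, hr, Mo r g, hBU, hF, ?_⟩
  obtain ⟨-, -, -, -, huniq, -⟩ := L.t1 N (ball p r) isOpen_ball fun h => h0 (hBU h)
  have key := huniq (fun z => W z - Mo r g z)
    ((hW.mono_set hBU).sub (hF.continuous.locallyIntegrable.locallyIntegrableOn _)) ?_
  · filter_upwards [key] with z hz hzB using sub_eq_zero.1 (hz hzB)
  intro ψ hψ
  have hψ0 : ∀ z ∉ ball p r, ψ z = 0 := fun z hz =>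
    image_eq_zero_of_notMem_tsupport fun h => hz (hψ.2.2 h)
  have hψi : Integrable ψ := hψ.1.continuous.integrable_of_hasCompactSupport hψ.2.1
  obtain ⟨-, -, -, hT, -⟩ := L.t1 N U hU h0
  have hA := fun j => w1_near L hN hr hψ j
  have hAU : ∀ j, Test U fun x => ∫ y, ψ (x - y) * kk j r y := fun j =>
    ⟨(hA j).1.1, (hA j).1.2.1, (hA j).1.2.2.trans hK⟩
  have hAd := fun j => ((hT _ (hAU j)).2.2.1 j).2
  have hA0 : ∀ j, ∫ z, g z * dzb j (fun x => ∫ y, ψ (x - y) * kk j r y) z = 0 := by
    intro j
    rw [← hd j _ (hAU j), w1_set_eq hU.measurableSet hK]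
    intro z hz
    have h1 : (fun x => ∫ y, ψ (x - y) * kk j r y) =ᶠ[𝓝 z] fun _ => 0 :=
      notMem_tsupport_iff_eventuallyEq.1 fun h => hz ((hA j).1.2.2 h)
    rw [dzb_congr h1, dzb_const]
  have hM : ∀ x, Mo r ψ x = ψ x - ∑ j, dzb j (fun x => ∫ y, ψ (x - y) * kk j r y) x := by
    intro x
    have := (L.bm2 N hN).2.1 univ ψ x r isOpen_univ hψ.1.contDiffOn hr (subset_univ _)
    simp only [fun j => (hA j).2 x]
    linear_combination -this
  have h1 : ∫ x, g x * Mo r ψ x = ∫ x, g x * ψ x := by
    simp only [hM, mul_sub, Finset.mul_sum]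
    rw [integral_sub (w1_int_mul hg hψ.1.continuous hψ.2.1)
      (integrable_finsetSum _ fun j _ => w1_int_mul hg (hAd j).1.continuous (hAd j).2.1),
      integral_finsetSum _ fun j _ => w1_int_mul hg (hAd j).1.continuous (hAd j).2.1]
    simp [hA0]
  have h2 : ∫ z in ball p r, (W z - Mo r g z) * ψ z = ∫ z, (g z * ψ z - Mo r g z * ψ z) := by
    rw [← integral_indicator measurableSet_ball]
    refine integral_congr_ae (Eventually.of_forall fun z => ?_)
    by_cases hz : z ∈ ball p r
    · simp only [indicator_of_mem hz, hgdef, indicator_of_mem (hBK hz)]; ring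
    · simp only [indicator_of_notMem hz, hψ0 z hz]; ring
  have h3 : Integrable fun z => Mo r g z * ψ z :=
    (hF.continuous.mul hψ.1.continuous).integrable_of_hasCompactSupport hψ.2.1.mul_left
  rw [h2, integral_sub (w1_int_mul hg hψ.1.continuous hψ.2.1) h3,
    ← w1_fub L hN hr hg hψi, h1, sub_self]

theorem w1 (L : Lv0) : StmtW1 := by
  intro N hN U W hU h0 hW hd
  have hloc := fun p (hp : p ∈ U) => w1_local L hN hU h0 hW hd hp
  choose! r hr F hBU hF hae using hloc
  have hglue : ∀ p ∈ U, ∀ z ∈ ball p (r p), F z z = F p z := by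
    intro p hp z hz
    have hzU := hBU p hp hz
    have h1 : F z =ᵐ[volume.restrict (ball p (r p) ∩ ball z (r z))] F p := by
      rw [Filter.EventuallyEq, ae_restrict_iff' (measurableSet_ball.inter measurableSet_ball)]
      filter_upwards [hae p hp, hae z hzU] with y h1 h2 hy
      rw [← h1 hy.1, ← h2 hy.2]
    exact Measure.eqOn_open_of_ae_eq h1 (isOpen_ball.inter isOpen_ball)
      (hF z hzU).continuous.continuousOn (hF p hp).continuous.continuousOn
      ⟨hz, mem_ball_self (hr z hzU)⟩
  have hs : ContDiffOn ℝ ∞ (fun z => F z z) U := by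
    intro p hp
    have h1 : (fun z => F z z) =ᶠ[𝓝 p] F p := by
      filter_upwards [ball_mem_nhds p (hr p hp)] with z hz using hglue p hp z hz
    exact ((hF p hp).contDiffAt.congr_of_eventuallyEq h1).contDiffWithinAt
  have hWae : ∀ᵐ z, z ∈ U → W z = F z z := by
    rw [ae_iff]
    refine measure_null_of_locally_null _ fun p hp => ?_
    have hpU : p ∈ U := by
      by_contra h
      exact hp fun h' => absurd h' h
    refine ⟨_, inter_mem_nhdsWithin _ (ball_mem_nhds p (hr p hpU)), ?_⟩
    refine measure_mono_null ?_ (ae_iff.1 (hae p hpU))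
    intro z hz hz'
    exact hz.1 fun _ => (hz' hz.2).trans (hglue p hpU z hz.2).symm
  refine ⟨fun z => F z z, ⟨hs, fun j => ?_⟩, hWae⟩
  obtain ⟨-, -, -, -, huniq, hsm, -⟩ := L.t1 N U hU h0
  have hc : ContinuousOn (dzb j fun z => F z z) U := fun z hz =>
    (contDiffAt_dzb j (hs.contDiffAt (hU.mem_nhds hz))).continuousAt.continuousWithinAt
  have h1 := huniq (dzb j fun z => F z z) (hc.locallyIntegrableOn hU.measurableSet) fun ψ hψ => by
    have h2 := ((hsm _ hs).2 j).1 ψ hψ
    have h3 : ∫ z in U, F z z * dzb j ψ z = ∫ z in U, W z * dzb j ψ z := by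
      refine setIntegral_congr_ae hU.measurableSet ?_
      filter_upwards [hWae] with z hz hzU
      rw [hz hzU]
    rw [h3, hd j ψ hψ] at h2
    exact neg_eq_zero.1 h2.symm
  have h2 : (dzb j fun z => F z z) =ᵐ[volume.restrict U] fun _ => 0 :=
    (ae_restrict_iff' hU.measurableSet).2 h1
  exact Measure.eqOn_open_of_ae_eq h2 hU hc continuousOn_const

end Pool.Agent.MP_fcd29e_an.H37
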